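import Pool.Agent.KS6_49.CW.Main

/-!
`RCA₀ + CRT²₂` does not prove `COH`, not even together with weak König's lemma, all true sentences
of first-order arithmetic (more generally all true `Σ¹₁` sentences), and with `COH` restricted to
sequences of sets of bounded length.

The files in `Pool/Agent/KS6_49/CW` contain an adapted copy of the construction of a model of
`RCA₀ + CRT²₂ + ¬ COH` by a game on large finite sets with a tree of colours. Here the growth
function of the game and the codes of internal functions depend on an arbitrary sequence of
functions `g_k : ℕ → ℕ` (class `Par`), so that the cut is closed under all `g_k`; taking for `g_k`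
the Skolem functions of the structure `(ℕ, +, ·, <, A_0, A_1, …)` makes the first-order part
an elementary extension of this structure (file `Elem`). File `Sep` proves separation and weak
König's lemma in the model: the internal set of all ancestors of the largest number all of whose
ancestors are in an internal tree is a branch. File `Fin` shows that cohesiveness fails for a
sequence of bounded length.
-/

namespace Pool.Agent.Results.MP_5a182c_lc.WeakKonigTrueArithmetic

open Pool.Agent.KS6_49.CW Pool.Agent.KS6_49.CW.RM Pool.Agent.KS6_49.CW.CR

/-- **Main theorem.** For every sequence `A_0, A_1, …` of sets of natural numbers there is a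
structure `N` for second-order arithmetic which is a model of `RCA₀`, of weak König's lemma, of
separation for `Σ⁰₁` formulas and of cohesive Ramsey's theorem for pairs and two colours, in which
the cohesiveness principle fails, even for sequences `(R_i)_{i < a}` of some bounded length `a`,
and whose first-order part with some sets `B_0, B_1, …` of `N` as predicates is an elementary
extension of `(ℕ, 0, 1, +, ·, <, A_0, A_1, …)`. -/
theorem result (A : ℕ → Set ℕ) : ∃ N : L2Structure.{0},
    IsModelRCA0 N ∧ WKL N ∧ SigmaSep N ∧ CRT22 N ∧ ¬ COH N ∧ ¬ FinCOH N ∧
    ∃ (B : ℕ → Set N.M) (j : ℕ → N.M), (∀ k, B k ∈ N.Sets) ∧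
      ∀ (φ : Fm) (v : ℕ → ℕ), φ.Holds stdN A v ↔ φ.Holds N B (fun i => j (v i)) :=
  main A

end Pool.Agent.Results.MP_5a182c_lc.WeakKonigTrueArithmetic
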